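import Mathlib

/-!
# MT100, module FRE (core): freeness of the Kronecker product from the peeling theorem

Index free form.  `V s w` are real matrices, `G s` matrices of power series with rational
coefficients, `E` a matrix of polynomials with `E(0) = 1` and `G_s(1/w) = V_s(w) E(log w)`.
If the products of the entries of the `V_s(w)` are linearly independent over `ℝ[w][log w]`, then
the products of the entries of the `G_s` are linearly independent over `ℚ[z]`.
-/

namespace Pool.Agent.MT100.H33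

open Polynomial

/-- absolute convergence of a power series with rational coefficients at the real number `u` -/
def Cv (u : ℝ) (f : PowerSeries ℚ) : Prop :=
  Summable fun k => |((PowerSeries.coeff k f : ℚ) : ℝ) * u ^ k|

/-- the value -/
noncomputable def ev (u : ℝ) (f : PowerSeries ℚ) : ℝ :=
  ∑' k, ((PowerSeries.coeff k f : ℚ) : ℝ) * u ^ k

theorem Cv.summable {u : ℝ} {f : PowerSeries ℚ} (h : Cv u f) :
    Summable fun k => ((PowerSeries.coeff k f : ℚ) : ℝ) * u ^ k :=
  Summable.of_abs h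

theorem cv_of_hasSum {u v : ℝ} {f : PowerSeries ℚ}
    (h : HasSum (fun k => ((PowerSeries.coeff k f : ℚ) : ℝ) * u ^ k) v) : Cv u f ∧ ev u f = v :=
  ⟨h.summable.abs, h.tsum_eq⟩

theorem cv_add {u : ℝ} {f g : PowerSeries ℚ} (hf : Cv u f) (hg : Cv u g) : Cv u (f + g) := by
  refine Summable.abs ?_
  have := hf.summable.add hg.summable
  refine this.congr fun k => ?_
  rw [map_add]; push_cast; ring

theorem ev_add {u : ℝ} {f g : PowerSeries ℚ} (hf : Cv u f) (hg : Cv u g) :
    ev u (f + g) = ev u f + ev u g := by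
  unfold ev
  rw [← hf.summable.tsum_add hg.summable]
  refine tsum_congr fun k => ?_
  rw [map_add]; push_cast; ring

theorem cv_zero (u : ℝ) : Cv u 0 := by
  unfold Cv; simp

theorem ev_zero (u : ℝ) : ev u 0 = 0 := by
  unfold ev; simp

theorem coeff_one_eq (k : ℕ) : (PowerSeries.coeff k (1 : PowerSeries ℚ)) = if k = 0 then 1 else 0 := by
  rw [PowerSeries.coeff_one]

theorem hasSum_one (u : ℝ) :
    HasSum (fun k => ((PowerSeries.coeff k (1 : PowerSeries ℚ) : ℚ) : ℝ) * u ^ k) 1 := by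
  have := hasSum_single (f := fun k => ((PowerSeries.coeff k (1 : PowerSeries ℚ) : ℚ) : ℝ) * u ^ k)
    0 (fun k hk => by rw [coeff_one_eq, if_neg hk]; simp)
  simpa [coeff_one_eq] using this

theorem mul_term (u : ℝ) (f g : PowerSeries ℚ) (n : ℕ) :
    ((PowerSeries.coeff n (f * g) : ℚ) : ℝ) * u ^ n =
      ∑ kl ∈ Finset.HasAntidiagonal.antidiagonal n, (((PowerSeries.coeff kl.1 f : ℚ) : ℝ) * u ^ kl.1) *
        (((PowerSeries.coeff kl.2 g : ℚ) : ℝ) * u ^ kl.2) := by
  rw [PowerSeries.coeff_mul]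
  push_cast
  rw [Finset.sum_mul]
  refine Finset.sum_congr rfl fun kl hkl => ?_
  rw [← Finset.HasAntidiagonal.mem_antidiagonal.1 hkl, pow_add]
  ring

theorem cv_mul {u : ℝ} {f g : PowerSeries ℚ} (hf : Cv u f) (hg : Cv u g) : Cv u (f * g) := by
  have h := summable_norm_sum_mul_antidiagonal_of_summable_norm
    (f := fun k => ((PowerSeries.coeff k f : ℚ) : ℝ) * u ^ k)
    (g := fun k => ((PowerSeries.coeff k g : ℚ) : ℝ) * u ^ k) hf hg
  refine Summable.congr h fun n => ?_
  rw [mul_term, Real.norm_eq_abs]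

theorem ev_mul {u : ℝ} {f g : PowerSeries ℚ} (hf : Cv u f) (hg : Cv u g) :
    ev u (f * g) = ev u f * ev u g := by
  unfold ev
  rw [tsum_mul_tsum_eq_tsum_sum_antidiagonal_of_summable_norm
    (f := fun k => ((PowerSeries.coeff k f : ℚ) : ℝ) * u ^ k)
    (g := fun k => ((PowerSeries.coeff k g : ℚ) : ℝ) * u ^ k) hf hg]
  exact tsum_congr fun n => mul_term u f g n

theorem cv_ev_sum {u : ℝ} {ι : Type*} (s : Finset ι) (f : ι → PowerSeries ℚ)
    (h : ∀ i ∈ s, Cv u (f i)) : Cv u (∑ i ∈ s, f i) ∧ ev u (∑ i ∈ s, f i) = ∑ i ∈ s, ev u (f i) := by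
  classical
  induction s using Finset.induction_on with
  | empty => simp [cv_zero, ev_zero]
  | insert a s ha ih =>
    obtain ⟨h1, h2⟩ := ih fun i hi => h i (Finset.mem_insert_of_mem hi)
    rw [Finset.sum_insert ha, Finset.sum_insert ha]
    have h3 := h a (Finset.mem_insert_self a s)
    exact ⟨cv_add h3 h1, by rw [ev_add h3 h1, h2]⟩

theorem cv_ev_prod {u : ℝ} {ι : Type*} (s : Finset ι) (f : ι → PowerSeries ℚ)
    (h : ∀ i ∈ s, Cv u (f i)) : Cv u (∏ i ∈ s, f i) ∧ ev u (∏ i ∈ s, f i) = ∏ i ∈ s, ev u (f i) := by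
  classical
  induction s using Finset.induction_on with
  | empty =>
    simp only [Finset.prod_empty]
    exact cv_of_hasSum (hasSum_one u)
  | insert a s ha ih =>
    obtain ⟨h1, h2⟩ := ih fun i hi => h i (Finset.mem_insert_of_mem hi)
    rw [Finset.prod_insert ha, Finset.prod_insert ha]
    have h3 := h a (Finset.mem_insert_self a s)
    exact ⟨cv_mul h3 h1, by rw [ev_mul h3 h1, h2]⟩

theorem cv_ev_poly (u : ℝ) (p : ℚ[X]) : Cv u (p : PowerSeries ℚ) ∧
    ev u (p : PowerSeries ℚ) = (p.map (algebraMap ℚ ℝ)).eval u := by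
  refine cv_of_hasSum ?_
  have h : HasSum (fun k => ((PowerSeries.coeff k (p : PowerSeries ℚ) : ℚ) : ℝ) * u ^ k)
      (∑ k ∈ Finset.range (p.natDegree + 1),
        ((PowerSeries.coeff k (p : PowerSeries ℚ) : ℚ) : ℝ) * u ^ k) := by
    refine hasSum_sum_of_ne_finset_zero fun k hk => ?_
    rw [Polynomial.coeff_coe, Polynomial.coeff_eq_zero_of_natDegree_lt]
    · simp
    · simpa using hk
  have h1 : ∑ k ∈ Finset.range (p.natDegree + 1),
        ((PowerSeries.coeff k (p : PowerSeries ℚ) : ℚ) : ℝ) * u ^ k =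
      (p.map (algebraMap ℚ ℝ)).eval u := by
    rw [Polynomial.eval_map, Polynomial.eval₂_eq_sum_range]
    refine Finset.sum_congr rfl fun k _ => ?_
    rw [Polynomial.coeff_coe]; rfl
  rw [← h1]
  exact h

theorem sum_aux {τ : Type*} [Fintype τ] (a b : ℝ) (f : τ → ℝ) :
    ∑ x, a * (b * f x) = a * (b * ∑ x, f x) := by
  rw [← Finset.mul_sum, ← Finset.mul_sum]

theorem reflect_eval {D : ℕ} {q : ℝ[X]} (hD : q.natDegree ≤ D) {w : ℝ} (hw : w ≠ 0) :
    (reflect D q).eval w = w ^ D * q.eval (1 / w) := by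
  have hi : Invertible (1 / w : ℝ) := invertibleOfNonzero (by positivity)
  have h := eval₂_reflect_mul_pow (RingHom.id ℝ) (1 / w) D q hD
  rw [invOf_eq_inv, one_div, inv_inv, eval₂_id, eval₂_id] at h
  rw [one_div, ← h]
  generalize (reflect D q).eval w = y
  rw [inv_pow]
  field_simp

/-- the core of module FRE -/
theorem freCore {ι d : Type} [Fintype ι] [DecidableEq ι] [Fintype d] [DecidableEq d]
    (V : ι → ℝ → Matrix d d ℝ) (G : ι → Matrix d d (PowerSeries ℚ))
    (E : Matrix d d ℝ[X]) (hE0 : ∀ a b, (E a b).eval 0 = (1 : Matrix d d ℝ) a b)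
    (hG : ∀ᶠ w in Filter.atTop, ∀ s a b,
      HasSum (fun k => ((PowerSeries.coeff k (G s a b) : ℚ) : ℝ) * (1 / w) ^ k)
        (∑ c, V s w a c * (E c b).eval (Real.log w)))
    (pee : ∀ c : (ι → d) → (ι → d) → ℝ[X][X],
      (∀ᶠ w in Filter.atTop, ∑ β, ∑ α, (c β α).evalEval w (Real.log w) *
        ∏ i, V i w (β i) (α i) = 0) → ∀ β α, c β α = 0)
    (p : (ι → d) → (ι → d) → ℚ[X])
    (hp : ∑ α, ∑ β, (p α β : PowerSeries ℚ) * ∏ s, G s (β s) (α s) = 0) :
    ∀ α β, p α β = 0 := by
  classical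
  -- a common degree bound
  obtain ⟨D, hD⟩ : ∃ D : ℕ, ∀ α β, ((p α β).map (algebraMap ℚ ℝ)).natDegree ≤ D := by
    refine ⟨∑ α, ∑ β, ((p α β).map (algebraMap ℚ ℝ)).natDegree, fun α β => ?_⟩
    refine le_trans ?_ (Finset.single_le_sum (f := fun α => ∑ β,
      ((p α β).map (algebraMap ℚ ℝ)).natDegree) (fun _ _ => Nat.zero_le _) (Finset.mem_univ α))
    exact Finset.single_le_sum (f := fun β => ((p α β).map (algebraMap ℚ ℝ)).natDegree)
      (fun _ _ => Nat.zero_le _) (Finset.mem_univ β)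
  set Q : (ι → d) → (ι → d) → ℝ[X] := fun α β => reflect D ((p α β).map (algebraMap ℚ ℝ)) with hQ
  have hQe : ∀ α β, ∀ w : ℝ, w ≠ 0 →
      (Q α β).eval w = w ^ D * ((p α β).map (algebraMap ℚ ℝ)).eval (1 / w) := by
    intro α β w hw
    exact reflect_eval (hD α β) hw
  set c : (ι → d) → (ι → d) → ℝ[X][X] := fun β γ =>
    ∑ α, C (Q α β) * ∏ s, (E (γ s) (α s)).map C with hc
  have hce : ∀ β γ, ∀ w l : ℝ, (c β γ).evalEval w l =
      ∑ α, (Q α β).eval w * ∏ s, (E (γ s) (α s)).eval l := by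
    intro β γ w l
    have hm : ∀ q : ℝ[X], (q.map C : ℝ[X][X]).evalEval w l = q.eval l := by
      intro q
      rw [Polynomial.evalEval_map_C]
    rw [hc]
    simp only [Polynomial.evalEval_finsetSum, Polynomial.evalEval_mul, Polynomial.evalEval_C]
    refine Finset.sum_congr rfl fun α _ => ?_
    congr 1
    have hmul : ∀ s : Finset ι, (∏ i ∈ s, ((E (γ i) (α i)).map C : ℝ[X][X])).evalEval w l =
        ∏ i ∈ s, (E (γ i) (α i)).eval l := by
      intro s
      induction s using Finset.induction_on with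
      | empty => simp [Polynomial.evalEval_one]
      | insert a s ha ih => rw [Finset.prod_insert ha, Finset.prod_insert ha,
          Polynomial.evalEval_mul, ih, hm]
    exact hmul Finset.univ
  have hc0 : ∀ β γ, c β γ = 0 := by
    refine pee c ?_
    filter_upwards [Filter.eventually_gt_atTop 0, hG] with w hw0 hw1
    have hval : ∀ s a b, Cv (1 / w) (G s a b) ∧ ev (1 / w) (G s a b) =
        ∑ e, V s w a e * (E e b).eval (Real.log w) := fun s a b => cv_of_hasSum (hw1 s a b)
    have h1 : ∑ α, ∑ β, ((p α β).map (algebraMap ℚ ℝ)).eval (1 / w) *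
        ∏ s, (∑ e, V s w (β s) e * (E e (α s)).eval (Real.log w)) = 0 := by
      have h2 := congrArg (ev (1 / w)) hp
      rw [ev_zero] at h2
      have h3 : ∀ α β, Cv (1 / w) ((p α β : PowerSeries ℚ) * ∏ s, G s (β s) (α s)) ∧
          ev (1 / w) ((p α β : PowerSeries ℚ) * ∏ s, G s (β s) (α s)) =
            ((p α β).map (algebraMap ℚ ℝ)).eval (1 / w) *
              ∏ s, (∑ e, V s w (β s) e * (E e (α s)).eval (Real.log w)) := by
        intro α β
        obtain ⟨h4, h5⟩ := cv_ev_poly (1 / w) (p α β)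
        obtain ⟨h6, h7⟩ := cv_ev_prod Finset.univ (fun s => G s (β s) (α s))
          fun s _ => (hval s (β s) (α s)).1
        refine ⟨cv_mul h4 h6, ?_⟩
        rw [ev_mul h4 h6, h5, h7]
        congr 1
        exact Finset.prod_congr rfl fun s _ => (hval s (β s) (α s)).2
      have h8 : ∀ α, Cv (1 / w) (∑ β, (p α β : PowerSeries ℚ) * ∏ s, G s (β s) (α s)) ∧
          ev (1 / w) (∑ β, (p α β : PowerSeries ℚ) * ∏ s, G s (β s) (α s)) =
            ∑ β, ((p α β).map (algebraMap ℚ ℝ)).eval (1 / w) *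
              ∏ s, (∑ e, V s w (β s) e * (E e (α s)).eval (Real.log w)) := by
        intro α
        obtain ⟨h9, h10⟩ := cv_ev_sum Finset.univ
          (fun β => (p α β : PowerSeries ℚ) * ∏ s, G s (β s) (α s)) fun β _ => (h3 α β).1
        exact ⟨h9, h10.trans (Finset.sum_congr rfl fun β _ => (h3 α β).2)⟩
      obtain ⟨_, h12⟩ := cv_ev_sum Finset.univ
        (fun α => ∑ β, (p α β : PowerSeries ℚ) * ∏ s, G s (β s) (α s)) fun α _ => (h8 α).1
      rw [h12] at h2
      rw [← h2]
      exact Finset.sum_congr rfl fun α _ => ((h8 α).2).symm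
    have h13 : ∑ β, ∑ γ, (c β γ).evalEval w (Real.log w) * ∏ i, V i w (β i) (γ i) =
        w ^ D * ∑ α, ∑ β, ((p α β).map (algebraMap ℚ ℝ)).eval (1 / w) *
        ∏ s, (∑ e, V s w (β s) e * (E e (α s)).eval (Real.log w)) := by
      rw [Finset.sum_comm (s := (Finset.univ : Finset (ι → d))) (t := Finset.univ)
        (f := fun α β => ((p α β).map (algebraMap ℚ ℝ)).eval (1 / w) *
          ∏ s, (∑ e, V s w (β s) e * (E e (α s)).eval (Real.log w))), Finset.mul_sum]
      refine Finset.sum_congr rfl fun β _ => ?_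
      have h14 : ∀ α : ι → d, ∏ s, (∑ e, V s w (β s) e * (E e (α s)).eval (Real.log w)) =
          ∑ γ : ι → d, ∏ s, (V s w (β s) (γ s) * (E (γ s) (α s)).eval (Real.log w)) := by
        intro α
        rw [Finset.prod_univ_sum]
        rfl
      have h15 : w ^ D * ∑ α, ((p α β).map (algebraMap ℚ ℝ)).eval (1 / w) *
            ∏ s, (∑ e, V s w (β s) e * (E e (α s)).eval (Real.log w)) =
          ∑ α, w ^ D * (((p α β).map (algebraMap ℚ ℝ)).eval (1 / w) *
            ∑ γ : ι → d, ∏ s, (V s w (β s) (γ s) * (E (γ s) (α s)).eval (Real.log w))) := by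
        rw [Finset.mul_sum]
        exact Finset.sum_congr rfl fun α _ => by rw [h14]
      refine Eq.trans ?_ h15.symm
      obtain ⟨F, hF⟩ : ∃ F : (ι → d) → (ι → d) → ℝ, ∀ α γ, F α γ =
          ((p α β).map (algebraMap ℚ ℝ)).eval (1 / w) *
              ∏ s, (V s w (β s) (γ s) * (E (γ s) (α s)).eval (Real.log w)) := ⟨_, fun _ _ => rfl⟩
      have h16 : ∀ γ : ι → d, (c β γ).evalEval w (Real.log w) * ∏ i, V i w (β i) (γ i) =
          ∑ α, w ^ D * F α γ := by
        intro γ
        rw [hce, Finset.sum_mul]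
        refine Finset.sum_congr rfl fun α _ => ?_
        rw [hQe α β w hw0.ne', hF, Finset.prod_mul_distrib]
        ring
      have h17 : ∀ α : ι → d, w ^ D * (((p α β).map (algebraMap ℚ ℝ)).eval (1 / w) *
            ∑ γ : ι → d, ∏ s, (V s w (β s) (γ s) * (E (γ s) (α s)).eval (Real.log w))) =
          ∑ γ, w ^ D * F α γ := by
        intro α
        simp only [hF]
        exact (sum_aux _ _ _).symm
      simp only [h16, h17]
      exact Finset.sum_comm
    rw [h13, h1, mul_zero]
  -- at lambda = 0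
  intro α β
  have hQ0 : Q α β = 0 := by
    refine Polynomial.funext fun w => ?_
    have h := hce β α w 0
    rw [hc0] at h
    have h1 : ∀ α' : ι → d, ∏ s, (E (α s) (α' s)).eval 0 = if α' = α then 1 else 0 := by
      intro α'
      by_cases h2 : α' = α
      · rw [if_pos h2, h2]
        refine Finset.prod_eq_one fun s _ => ?_
        rw [hE0]; simp
      · rw [if_neg h2]
        obtain ⟨s, hs⟩ := Function.ne_iff.1 h2
        refine Finset.prod_eq_zero (Finset.mem_univ s) ?_
        rw [hE0, Matrix.one_apply_ne (Ne.symm hs)]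
    simp only [h1, mul_ite, mul_one, mul_zero, Finset.sum_ite_eq', Finset.mem_univ, if_true] at h
    rw [← h]
    simp [Polynomial.evalEval_zero]
  have h2 : (p α β).map (algebraMap ℚ ℝ) = 0 := by
    rw [hQ] at hQ0
    exact (Polynomial.reflect_eq_zero_iff).1 hQ0
  exact (Polynomial.map_eq_zero_iff (algebraMap ℚ ℝ).injective).1 h2

end Pool.Agent.MT100.H33
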