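import Pool.Agent.MT100.Stmts
import Pool.Agent.Helper33_MT.FreCore

/-!
# MT100, module FRE: freeness of the tensor products of symmetric squares of translated systems
-/

set_option autoImplicit false

namespace Pool.Agent.MT100.H33

open Matrix Polynomial

/-- `exp (x N) exp (y N) = exp ((x + y) N)` for the shift `N` -/
theorem en_mul_en (r : ℕ) {R : Type*} [CommRing R] [Algebra ℚ R] (x y : R) :
    en r x * en r y = en r (x + y) := by
  ext l i
  rw [Matrix.mul_apply]
  have h0 : ∀ m : Fin r, en r x l m * en r y m i =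
      (fun m : ℕ => if (l : ℕ) ≤ m ∧ m ≤ (i : ℕ) then
        ((((m - (l : ℕ)).factorial : ℚ)⁻¹) * ((((i : ℕ) - m).factorial : ℚ)⁻¹)) •
          (x ^ (m - (l : ℕ)) * y ^ ((i : ℕ) - m)) else 0) m := by
    intro m
    unfold en
    by_cases h1 : l ≤ m
    · by_cases h2 : m ≤ i
      · have h3 : (l : ℕ) ≤ m ∧ (m : ℕ) ≤ (i : ℕ) := ⟨h1, h2⟩
        rw [if_pos h1, if_pos h2]
        simp only [if_pos h3]
        rw [smul_mul_smul_comm]
      · have h3 : ¬ ((l : ℕ) ≤ m ∧ (m : ℕ) ≤ (i : ℕ)) := fun h => h2 h.2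
        rw [if_neg h2]
        simp only [if_neg h3, mul_zero]
    · have h3 : ¬ ((l : ℕ) ≤ m ∧ (m : ℕ) ≤ (i : ℕ)) := fun h => h1 h.1
      rw [if_neg h1]
      simp only [if_neg h3, zero_mul]
  refine (Finset.sum_congr rfl fun m _ => h0 m).trans ?_
  refine (Fin.sum_univ_eq_sum_range (fun m : ℕ => if (l : ℕ) ≤ m ∧ m ≤ (i : ℕ) then
        ((((m - (l : ℕ)).factorial : ℚ)⁻¹) * ((((i : ℕ) - m).factorial : ℚ)⁻¹)) •
          (x ^ (m - (l : ℕ)) * y ^ ((i : ℕ) - m)) else 0) r).trans ?_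
  unfold en
  by_cases hli : l ≤ i
  · rw [if_pos hli]
    have hli' : (l : ℕ) ≤ i := hli
    have hsub : Finset.Ico (l : ℕ) ((i : ℕ) + 1) ⊆ Finset.range r := by
      intro m hm
      rw [Finset.mem_Ico] at hm
      rw [Finset.mem_range]
      have := i.2
      omega
    rw [← Finset.sum_subset hsub, Finset.sum_Ico_eq_sum_range, add_pow]
    · rw [Finset.smul_sum]
      have h5 : (i : ℕ) + 1 - l = (i : ℕ) - l + 1 := by omega
      rw [h5]
      refine Finset.sum_congr rfl fun k hk => ?_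
      rw [Finset.mem_range] at hk
      have h6 : (l : ℕ) ≤ l + k ∧ (l : ℕ) + k ≤ i := by omega
      rw [if_pos h6]
      have h7 : (l : ℕ) + k - l = k := by omega
      have h8 : (i : ℕ) - (l + k) = (i : ℕ) - l - k := by omega
      rw [h7, h8]
      have h9 : (x ^ k * y ^ ((i : ℕ) - l - k) * (((i : ℕ) - l).choose k : R)) =
          ((((i : ℕ) - l).choose k : ℚ)) • (x ^ k * y ^ ((i : ℕ) - l - k)) := by
        rw [Algebra.smul_def, map_natCast]; ring
      rw [h9, smul_smul]
      congr 1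
      rw [Nat.cast_choose ℚ (by omega : k ≤ (i : ℕ) - l)]
      have h10 : (((i : ℕ) - l).factorial : ℚ) ≠ 0 := by positivity
      field_simp
    · intro m _ hm
      rw [Finset.mem_Ico] at hm
      rw [if_neg]
      omega
  · rw [if_neg hli]
    have hli' : ¬ (l : ℕ) ≤ i := hli
    refine Finset.sum_eq_zero fun m _ => ?_
    rw [if_neg]
    omega

theorem en_zero (r : ℕ) {R : Type*} [CommRing R] [Algebra ℚ R] : en r (0 : R) = 1 := by
  ext l i
  unfold en
  rcases lt_trichotomy l i with h | h | h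
  · have h' : (l : ℕ) < i := h
    have h2 : (i : ℕ) - l ≠ 0 := by omega
    rw [if_pos h.le, zero_pow h2, smul_zero, Matrix.one_apply_ne h.ne]
  · subst h
    simp
  · rw [if_neg (not_le.2 h), Matrix.one_apply_ne h.ne']

theorem en_eval (r : ℕ) (t : ℝ) (l i : Fin r) :
    ((en r (X : ℝ[X])) l i).eval t = en r t l i := by
  unfold en
  by_cases h : l ≤ i
  · rw [if_pos h, if_pos h]
    have h1 : ∀ (c : ℚ) (q : ℝ[X]), (c • q).eval t = c • q.eval t := by
      intro c q
      rw [Algebra.smul_def, Algebra.smul_def, eval_mul]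
      congr 1
      have : (algebraMap ℚ ℝ[X]) c = C ((algebraMap ℚ ℝ) c) := by
        rw [IsScalarTower.algebraMap_apply ℚ ℝ ℝ[X]]; rfl
      rw [this, eval_C]
    rw [h1, eval_pow, eval_X]
  · rw [if_neg h, if_neg h, eval_zero]

theorem cv_of_gtype {f : PowerSeries ℚ} (h : GType f) : ∀ᶠ w : ℝ in Filter.atTop, Cv w⁻¹ f := by
  obtain ⟨c, hc0, hc⟩ := h
  have hcR : (0 : ℝ) < c := by exact_mod_cast hc0
  filter_upwards [Filter.eventually_gt_atTop (2 * (c : ℝ))] with w hw
  have hw0 : 0 < w := lt_trans (by positivity) hw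
  have hx : (c : ℝ) * w⁻¹ ≤ 1 / 2 := by
    rw [← div_eq_mul_inv, div_le_div_iff₀ hw0 (by norm_num)]
    linarith
  refine Summable.of_nonneg_of_le (fun k => abs_nonneg _) (fun k => ?_)
    ((summable_geometric_of_lt_one (by norm_num : (0 : ℝ) ≤ 1 / 2) (by norm_num)).mul_left (c : ℝ))
  have h1 : |((PowerSeries.coeff k f : ℚ) : ℝ)| ≤ (c : ℝ) ^ (k + 1) := by
    have := (hc k).1
    exact_mod_cast this
  rw [abs_mul, abs_pow, abs_of_pos (inv_pos.2 hw0)]
  calc |((PowerSeries.coeff k f : ℚ) : ℝ)| * w⁻¹ ^ k ≤ (c : ℝ) ^ (k + 1) * w⁻¹ ^ k := by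
        gcongr
    _ = c * ((c : ℝ) * w⁻¹) ^ k := by ring
    _ ≤ c * (1 / 2) ^ k := by gcongr

theorem ev_eq (f : PowerSeries ℚ) (x : ℝ) : H33.ev x f = MT100.ev f x := rfl

/-- module FRE -/
theorem fre (hsym : SymStmt) (htra : TraStmt) (hval : ValStmt) (hpee : PeeStmt) : FreStmt := by
  intro D ι _ _ κ hκ p hp
  obtain ⟨hs1, hs2, hs3, _⟩ := hsym
  have key := freCore (ι := ι) (d := SI D.r) (fun s w => sy (W D (w - κ s)))
    (fun s => sy (Tr D (κ s))) (sy (en D.r (X : ℝ[X]))) ?_ ?_ ?_ (fun α β => p α β) ?_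
  · ext α β
    rw [key α β]; rfl
  · intro a b
    have h := congrFun (congrFun (hs3 D.r ℝ[X] ℝ (evalRingHom 0) (en D.r X)) a) b
    have h1 : (en D.r (X : ℝ[X])).map (evalRingHom 0) = 1 := by
      rw [← en_zero D.r (R := ℝ)]
      ext l i
      exact en_eval D.r 0 l i
    rw [h1, hs2] at h
    exact h.symm
  · have h1 : ∀ s : ι, ∀ᶠ w : ℝ in Filter.atTop, ∀ a b,
        HasSum (fun k => ((PowerSeries.coeff k (sy (Tr D (κ s)) a b) : ℚ) : ℝ) * (1 / w) ^ k)
          (∑ c, sy (W D (w - κ s)) a c * (sy (en D.r (X : ℝ[X])) c b).eval (Real.log w)) := by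
      intro s
      obtain ⟨K, N, q, B, hG⟩ := htra D (κ s)
      have hcv : ∀ᶠ w : ℝ in Filter.atTop, ∀ a b, Cv w⁻¹ (Tr D (κ s) a b) := by
        rw [Filter.eventually_all]
        intro a
        rw [Filter.eventually_all]
        intro b
        exact cv_of_gtype (hG.gH a b)
      filter_upwards [hcv, hval D (κ s)] with w hw1 hw2
      intro a b
      have h2 : (Tr D (κ s)).map (fun f => MT100.ev f w⁻¹) =
          W D (w - κ s) * en D.r (Real.log w) := by
        rw [hw2, Matrix.mul_assoc, en_mul_en, neg_add_cancel, en_zero, Matrix.mul_one]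
      have h3 : ∀ (a b : SI D.r), Cv w⁻¹ (sy (Tr D (κ s)) a b) ∧
          H33.ev w⁻¹ (sy (Tr D (κ s)) a b) =
            sy ((Tr D (κ s)).map (fun f => MT100.ev f w⁻¹)) a b := by
        intro a b
        have h4 := hw1 a.1.1 b.1.1
        have h5 := hw1 a.1.2 b.1.2
        have h6 := hw1 a.1.1 b.1.2
        have h7 := hw1 a.1.2 b.1.1
        unfold sy
        by_cases hb : b.1.1 < b.1.2
        · simp only [if_pos hb, Matrix.map_apply]
          refine ⟨cv_add (cv_mul h4 h5) (cv_mul h6 h7), ?_⟩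
          rw [ev_add (cv_mul h4 h5) (cv_mul h6 h7), ev_mul h4 h5, ev_mul h6 h7]
          rfl
        · simp only [if_neg hb, Matrix.map_apply, add_zero]
          refine ⟨cv_mul h4 h5, ?_⟩
          rw [ev_mul h4 h5]
          rfl
      have h8 : H33.ev w⁻¹ (sy (Tr D (κ s)) a b) =
          ∑ c, sy (W D (w - κ s)) a c * (sy (en D.r (X : ℝ[X])) c b).eval (Real.log w) := by
        rw [(h3 a b).2, h2, hs1, Matrix.mul_apply]
        refine Finset.sum_congr rfl fun c _ => ?_
        congr 1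
        have h9 := congrFun (congrFun (hs3 D.r ℝ[X] ℝ (evalRingHom (Real.log w)) (en D.r X)) c) b
        have h10 : (en D.r (X : ℝ[X])).map (evalRingHom (Real.log w)) = en D.r (Real.log w) := by
          ext l i
          exact en_eval D.r _ l i
        rw [h10] at h9
        exact h9
      rw [← h8, one_div]
      exact (h3 a b).1.summable.hasSum
    rw [Filter.eventually_all]
    exact h1
  · intro c hc β α
    have h := hpee D ι κ hκ c hc
    rw [h]; rfl
  · rw [Finset.sum_comm]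
    exact hp

end Pool.Agent.MT100.H33
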